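import Pool.Agent.H66.CW.RPB

/-! Row FNB: only finitely many big components of a symmetric table. -/

set_option autoImplicit false

open Set Pool.Agent.TK Pool.Agent.H71.VK

namespace Pool.Agent.CW

namespace FNB

/-- sequences by recursion -/
lemma seq {α : Type} (a0 : α) (Q : ℕ → (ℕ → α) → α → Prop) (h : ∀ i f, ∃ a, Q i f a)
    (hc : ∀ i f f' a, (∀ j < i, f j = f' j) → Q i f a → Q i f' a) :
    ∃ R : ℕ → α, ∀ i, Q i R (R i) := by
  classical
  choose φ hφ using h
  let g : ℕ → ℕ → α := fun k => Nat.rec (fun _ => a0) (fun i f => Function.update f i (φ i f)) k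
  have hgs : ∀ k, g (k + 1) = Function.update (g k) k (φ k (g k)) := fun k => rfl
  have stab : ∀ k j, j < k → g k j = g (j + 1) j := by
    intro k
    induction k with
    | zero =>
      intro j hj
      omega
    | succ k ih =>
      intro j hj
      rw [hgs]
      by_cases e : j = k
      · subst e
        rw [Function.update_self, hgs, Function.update_self]
      · rw [Function.update_of_ne e]
        exact ih j (by omega)
  refine ⟨fun j => g (j + 1) j, fun i => ?_⟩
  have h1 := hφ i (g i)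
  have e : g (i + 1) i = φ i (g i) := by rw [hgs, Function.update_self]
  have h2 := hc i _ (fun j => g (j + 1) j) _ (fun j hj => stab i j hj) h1
  rw [← e] at h2
  exact h2

variable {C : Type} {ι : Type} {M : St (C × ℕ)} {B : ι → Set ℕ} {z : ι → List ℕ}
  {R : ι → St (C × ℕ)}

lemma rp_empty : rp M B z R ∅ = M := by
  have h1 : ∀ x, rh M B z R ∅ x = x := fun x => RPB.rh_out (fun i hi => absurd hi (by simp))
  apply Prod.ext
  · rfl
  · funext l
    rw [RPB.rp_out]
    · have e : l.map (rh M B z R ∅) = l := by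
        conv_rhs => rw [← List.map_id l]
        exact List.map_congr_left fun x _ => h1 x
      rw [e]
    · rintro ⟨i, hi, -⟩
      exact hi

/-- The situation of the row: disjoint big components `Dv i` of the symmetric table with new
replacements. -/
structure Sit (c0 : C) (n : ℕ) (b : Rk) (M : St (C × ℕ)) (π : Pr) (S : List ℕ) (F : Tab)
    (v : ℕ → ℕ) (R : ℕ → St (C × ℕ)) : Prop where
  hπ : Vd (bn M) π
  hS : ∀ a ∈ S, a ∈ st (bn M) π
  hF : Sy F
  vd : ∀ i, Vd (bn M) ((S, F, v i, true) :: π)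
  ra : RA c0 n b M (fun i => st (bn M) ((S, F, v i, true) :: π)) (fun _ => S ++ zl π) R
  av : ∀ i, ∀ a ∈ dl π, a ∉ st (bn M) ((S, F, v i, true) :: π)
  new0 : ∀ i, ∀ ρ : Pr, ¬ FI (R i) (S ++ zl π) (st (bn M) ((S, F, v i, true) :: π))
    M (zl ρ) (st (bn M) ρ)
  new1 : ∀ i, ∀ j < i, ¬ FI (R i) (S ++ zl π) (st (bn M) ((S, F, v i, true) :: π))
    (R j) (S ++ zl π) (st (bn M) ((S, F, v j, true) :: π))

/-- the structure with the replaced blocks -/
noncomputable abbrev fy (M : St (C × ℕ)) (π : Pr) (S : List ℕ) (F : Tab) (v : ℕ → ℕ)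
    (R : ℕ → St (C × ℕ)) (T : Set ℕ) : St (C × ℕ) :=
  rp M (fun i => st (bn M) ((S, F, v i, true) :: π)) (fun _ => S ++ zl π) R T

lemma core (hFNC : T_FNC C) (hBLK : T_BLK C) (hIOT : T_IOT C) (hTYP : T_TYP C)
    {c0 : C} {n : ℕ} {b : Rk} {M : St (C × ℕ)} {π : Pr} {S : List ℕ} {F : Tab}
    {v : ℕ → ℕ} {R : ℕ → St (C × ℕ)} (sit : Sit c0 n b M π S F v R) (T T' : Set ℕ) (i : ℕ)
    (hi : i ∈ T) (hi' : i ∉ T') (h : Equiv.Perm ℕ) (hfix : ∀ a ∈ dl π ++ S, h a = a)
    (hiso : IsoH h (fy M π S F v R T) (fy M π S F v R T')) : False := by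
  obtain ⟨f1, f2, f3, f4⟩ := hFNC c0 n b M π S F v R sit.hF sit.vd sit.ra sit.av T
  obtain ⟨g1, g2, g3, g4⟩ := hFNC c0 n b M π S F v R sit.hF sit.vd sit.ra sit.av T'
  have hmp : mp h π = π := by
    rw [mp_congr (g := id) (fun a ha => hfix a (List.mem_append_left _ ha)), mp_id]
  have hSm : S.map h = S := by
    conv_rhs => rw [← List.map_id S]
    exact List.map_congr_left fun a ha => hfix a (List.mem_append_right _ ha)
  obtain ⟨H, -, -⟩ := hIOT _ _ h π hiso
  have hvi := vd_cons.1 (sit.vd i)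
  simp only at hvi
  obtain ⟨-, -, hv1, hv2⟩ := hvi
  -- the image of the base point
  set u := h (v i) with hu
  have hu1 : u ∈ st (bn M) π := by
    have h1 := st_iso h H π
    rw [hmp] at h1
    have h2 : u ∈ st (bn (fy M π S F v R T')) π := by
      rw [h1]
      exact ⟨v i, by rw [f2]; exact hv1, rfl⟩
    rw [g2] at h2
    exact h2
  have hu2 : u ∉ S := by
    intro h1
    have h2 := hfix u (List.mem_append_right _ h1)
    have h3 : u = v i := h.injective h2
    rw [h3] at h1
    exact hv2 h1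
  have hFI1 : FI (fy M π S F v R T) (S ++ zl π) (st (bn M) ((S, F, v i, true) :: π))
      (fy M π S F v R T') (S ++ zl π)
      (st (bn (fy M π S F v R T')) ((S, F, u, true) :: π)) := by
    obtain ⟨-, h1, -⟩ := hIOT _ _ h ((S, F, v i, true) :: π) hiso
    rw [mp_cons] at h1
    simp only [zl_cons] at h1
    rw [hmp, hSm, f3 i (v i) base_mem] at h1
    exact h1
  have hB1 := hBLK ℕ c0 n b M _ _ R sit.ra T i hi
  have key := hB1.symm.trans hFI1
  by_cases hj : ∃ j, u ∈ st (bn M) ((S, F, v j, true) :: π)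
  · obtain ⟨j, hj⟩ := hj
    by_cases hjT : j ∈ T'
    · rw [g3 j u hj] at key
      have hB2 := hBLK ℕ c0 n b M _ _ R sit.ra T' j hjT
      have key2 := key.trans hB2
      have hne : i ≠ j := by
        intro e
        rw [e] at hi'
        exact hi' hjT
      rcases lt_or_gt_of_ne hne with h1 | h1
      · exact sit.new1 j i h1 key2.symm
      · exact sit.new1 i j h1 key2
    · have hvd : Vd (bn (fy M π S F v R T')) ((S, F, u, true) :: π) :=
        vd_cons.2 ⟨g1, fun a ha => by rw [g2]; exact sit.hS a ha, by rw [g2]; exact hu1, hu2⟩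
      obtain ⟨π', p1, p2, p3⟩ := hTYP ℕ c0 n b M _ _ R sit.ra T' ∅ (Set.empty_subset _) _ hvd (by
        intro k hk _
        rw [g3 j u hj]
        refine sit.ra.disj k j ?_
        intro e
        rw [e] at hk
        exact hjT hk)
      rw [rp_empty] at p3
      exact sit.new0 i π' (key.trans p3)
  · have hj' : ∀ j, u ∉ st (bn M) ((S, F, v j, true) :: π) := fun j h1 => hj ⟨j, h1⟩
    have hvd : Vd (bn (fy M π S F v R T')) ((S, F, u, true) :: π) :=
      vd_cons.2 ⟨g1, fun a ha => by rw [g2]; exact sit.hS a ha, by rw [g2]; exact hu1, hu2⟩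
    obtain ⟨π', p1, p2, p3⟩ := hTYP ℕ c0 n b M _ _ R sit.ra T' ∅ (Set.empty_subset _) _ hvd (by
      intro k hk _
      rw [g4 u hu1 hu2 hj']
      rw [Set.disjoint_left]
      intro w hw1 hw2
      have hkv := vd_cons.1 (sit.vd k)
      simp only at hkv
      have hL : v k ∉ S ++ zl π := base_not_mem (sit.vd k)
      have hL' : u ∉ S ++ zl π := by
        intro h1
        rcases List.mem_append.1 h1 with h2 | h2
        · exact hu2 h2
        · exact zl_disj sit.hπ u h2 hu1
      rw [st_true] at hw1 hw2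
      have e1 := cl_eq sit.hF hkv.2.2.1 hL hw1
      have e2 := cl_eq sit.hF hu1 hL' hw2
      apply hj' k
      rw [st_true, ← e1, e2]
      exact self_mem_cl)
    rw [rp_empty] at p3
    exact sit.new0 i π' (key.trans p3)

end FNB

theorem pf_FNB {C : Type} [MeasurableSpace C] (hEXN : T_EXN C) (hMEX : T_MEX C)
    (hMES : T_MES C) (hFNC : T_FNC C) (hBLK : T_BLK C) (hIOT : T_IOT C) (_hINV : T_INV C)
    (hTYP : T_TYP C) : T_FNB C := by
  intro c0 n b X hX M hM π S F hπ hS hF
  by_contra hinf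
  have hinf : {D : Set ℕ | ∃ v ∈ st (bn M) π, v ∉ S ∧
      ¬ sml c0 n b M (S ++ zl π) (st (bn M) ((S, F, v, true) :: π)) ∧
      D = st (bn M) ((S, F, v, true) :: π)}.Infinite := hinf
  -- disjointness
  have hvd : ∀ v ∈ st (bn M) π, v ∉ S → Vd (bn M) ((S, F, v, true) :: π) :=
    fun v h1 h2 => vd_cons.2 ⟨hπ, hS, h1, h2⟩
  have heq : ∀ v ∈ st (bn M) π, v ∉ S → ∀ w ∈ st (bn M) ((S, F, v, true) :: π),
      st (bn M) ((S, F, v, true) :: π) = cl (bn M) (st (bn M) π) (S ++ zl π) F w := by
    intro v h1 h2 w hw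
    exact (cl_eq hF h1 (base_not_mem (hvd v h1 h2)) hw).symm
  -- remove the components which contain a parameter
  have hfin : {D : Set ℕ | ∃ a ∈ dl π, D = cl (bn M) (st (bn M) π) (S ++ zl π) F a}.Finite := by
    have : {D : Set ℕ | ∃ a ∈ dl π, D = cl (bn M) (st (bn M) π) (S ++ zl π) F a} =
        (fun a => cl (bn M) (st (bn M) π) (S ++ zl π) F a) '' {a | a ∈ dl π} := by
      ext D
      simp only [Set.mem_ofPred_eq, Set.mem_image]
      exact ⟨fun ⟨a, h1, h2⟩ => ⟨a, h1, h2.symm⟩, fun ⟨a, h1, h2⟩ => ⟨a, h1, h2.symm⟩⟩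
    rw [this]
    exact (List.finite_toSet (dl π)).image _
  have hinf2 := hinf.diff hfin
  let E := hinf2.natEmbedding
  have hE : ∀ i, ∃ v ∈ st (bn M) π, v ∉ S ∧
      ¬ sml c0 n b M (S ++ zl π) (st (bn M) ((S, F, v, true) :: π)) ∧
      (E i : Set ℕ) = st (bn M) ((S, F, v, true) :: π) := fun i => (E i).2.1
  choose v hv1 hv2 hv3 hv4 using hE
  have hvv : ∀ i, Vd (bn M) ((S, F, v i, true) :: π) := fun i => hvd (v i) (hv1 i) (hv2 i)
  have hav : ∀ i, ∀ a ∈ dl π, a ∉ st (bn M) ((S, F, v i, true) :: π) := by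
    intro i a ha h1
    apply (E i).2.2
    exact ⟨a, ha, by rw [hv4 i]; exact heq (v i) (hv1 i) (hv2 i) a h1⟩
  have hdj : ∀ i j, i ≠ j → Disjoint (st (bn M) ((S, F, v i, true) :: π))
      (st (bn M) ((S, F, v j, true) :: π)) := by
    intro i j hij
    rw [Set.disjoint_left]
    intro w h1 h2
    apply hij
    apply E.injective
    apply Subtype.ext
    rw [hv4 i, hv4 j, heq (v i) (hv1 i) (hv2 i) w h1, heq (v j) (hv1 j) (hv2 j) w h2]
  have hLav : ∀ i, ∀ a ∈ S ++ zl π, a ∉ st (bn M) ((S, F, v i, true) :: π) := by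
    intro i a ha
    exact zl_disj (hvv i) a ha
  -- the replacements
  obtain ⟨R, hR⟩ := FNB.seq M (fun i f a => BV c0 n a ∧
      FB b M (S ++ zl π) (st (bn M) ((S, F, v i, true) :: π)) a (S ++ zl π)
        (st (bn M) ((S, F, v i, true) :: π)) ∧
      ¬ InO (Set.range (fun ρ : Pr => ((M, zl ρ, st (bn M) ρ) : Tr C)) ∪
          {t | ∃ j < i, t = (f j, S ++ zl π, st (bn M) ((S, F, v j, true) :: π))})
        a (S ++ zl π) (st (bn M) ((S, F, v i, true) :: π)))
    (by
      intro i f
      refine hEXN c0 n b M (S ++ zl π) _ (hX.val M hM) hX.base (hLav i) (hv3 i) _ ?_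
      refine Set.Countable.union (Set.countable_range _) ?_
      have : {t : Tr C | ∃ j < i, t = (f j, S ++ zl π, st (bn M) ((S, F, v j, true) :: π))} =
          (fun j => ((f j, S ++ zl π, st (bn M) ((S, F, v j, true) :: π)) : Tr C)) ''
            {j | j < i} := by
        ext t
        simp only [Set.mem_ofPred_eq, Set.mem_image]
        exact ⟨fun ⟨a, h1, h2⟩ => ⟨a, h1, h2.symm⟩, fun ⟨a, h1, h2⟩ => ⟨a, h1, h2.symm⟩⟩
      rw [this]
      exact (Set.to_countable _).image _)
    (by
      rintro i f f' a hf ⟨h1, h2, h3⟩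
      refine ⟨h1, h2, ?_⟩
      rintro ⟨t, ht, h4⟩
      apply h3
      refine ⟨t, ?_, h4⟩
      rcases ht with ht | ⟨j, hj, ht⟩
      · exact Or.inl ht
      · refine Or.inr ⟨j, hj, ?_⟩
        rw [hf j hj]
        exact ht)
  have ra : RA c0 n b M (fun i => st (bn M) ((S, F, v i, true) :: π)) (fun _ => S ++ zl π) R :=
    { val := hX.val M hM
      vaR := fun i => (hR i).1
      disj := hdj
      avo := fun _ j => hLav j
      ctl := fun i x hx x' hx' ht y hy => ctl (hvv i) hx hx' ht hy
      fb := fun i => (hR i).2.1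
      base := hX.base }
  have sit : FNB.Sit c0 n b M π S F v R :=
    { hπ := hπ
      hS := hS
      hF := hF
      vd := hvv
      ra := ra
      av := hav
      new0 := fun i ρ h1 => (hR i).2.2 ⟨_, Or.inl ⟨ρ, rfl⟩, h1⟩
      new1 := fun i j hj h1 => (hR i).2.2 ⟨_, Or.inr ⟨j, hj, rfl⟩, h1⟩ }
  obtain ⟨y, y', hne, h, hfix, hi1, hi2⟩ := hX.nf
    (fun y => FNB.fy M π S F v R {i | y i = true}) (dl π ++ S)
    (hMES ℕ c0 n b M _ _ R ra (fun y => {i | y i = true}) (fun i => by
      have h1 : Measurable (fun y : ℕ → Bool => y i) := measurable_pi_apply i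
      exact h1 (measurableSet_singleton true)))
    (fun y => hMEX ℕ c0 n b X hX M hM _ _ R ra _)
  obtain ⟨i, hi⟩ := Function.ne_iff.1 hne
  cases e : y i with
  | true =>
    have e' : y' i = false := by
      rw [e] at hi
      cases e2 : y' i with
      | true => exact absurd e2.symm hi
      | false => rfl
    refine FNB.core hFNC hBLK hIOT hTYP sit {i | y i = true} {i | y' i = true} i e ?_ h hfix
      ⟨hi1, hi2⟩
    intro h1
    have h2 : y' i = true := h1
    rw [e'] at h2
    exact Bool.noConfusion h2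
  | false =>
    have e' : y' i = true := by
      rw [e] at hi
      cases e2 : y' i with
      | true => rfl
      | false => exact absurd e2.symm hi
    refine FNB.core hFNC hBLK hIOT hTYP sit {i | y' i = true} {i | y i = true} i e' ?_ h.symm
      (fun a ha => by
        rw [Equiv.symm_apply_eq]
        exact (hfix a ha).symm) ⟨?_, ?_⟩
    · intro h1
      have h2 : y i = true := h1
      rw [e] at h2
      exact Bool.noConfusion h2
    · intro u w
      rw [hi1, Equiv.apply_symm_apply, Equiv.apply_symm_apply]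
    · intro l
      rw [hi2, List.map_map]
      have : (h : ℕ → ℕ) ∘ (h.symm : ℕ → ℕ) = id := by
        funext x
        exact h.apply_symm_apply x
      rw [this, List.map_id]

end Pool.Agent.CW
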