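import Pool.Agent.H76.CW.StmtC

/-! Row MEM: membership in pieces is preserved in positions of rank `om2`. -/

set_option autoImplicit false

open Set Pool.Agent.TK Pool.Agent.H71.VK

namespace Pool.Agent.CW

namespace MEM

variable {C : Type}

lemma ee_PI {M M' : St (C × ℕ)} {p : List (ℕ × ℕ)} (hp : PI M M' p) {x x' y y' : ℕ}
    (hx : (x, x') ∈ p) (hy : (y, y') ∈ p) : ee (bn M) x y = ee (bn M') x' y' := by
  have h1 := hp.2.2 [(x, x'), (y, y')] (by
    intro z hz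
    simp only [List.mem_cons, List.not_mem_nil, or_false] at hz
    rcases hz with rfl | rfl
    exacts [hx, hy])
  have h2 := hp.2.2 [(y, y'), (x, x')] (by
    intro z hz
    simp only [List.mem_cons, List.not_mem_nil, or_false] at hz
    rcases hz with rfl | rfl
    exacts [hy, hx])
  simp only [List.map_cons, List.map_nil] at h1 h2
  unfold ee bn
  rw [h1, h2]

lemma tp_PI {M M' : St (C × ℕ)} {p : List (ℕ × ℕ)} (hp : PI M M' p) {L : List ℕ} {h : ℕ → ℕ}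
    (hL : ∀ a ∈ L, (a, h a) ∈ p) {x x' : ℕ} (hx : (x, x') ∈ p) :
    tp (bn M) L x = tp (bn M') (L.map h) x' := by
  unfold tp
  rw [List.map_map]
  exact List.map_congr_left fun s hs => ee_PI hp hx (hL s hs)

lemma mem_PI {M M' : St (C × ℕ)} {p : List (ℕ × ℕ)} (hp : PI M M' p) {L : List ℕ} {h : ℕ → ℕ}
    (hL : ∀ a ∈ L, (a, h a) ∈ p) {x x' : ℕ} (hx : (x, x') ∈ p) : x ∈ L ↔ x' ∈ L.map h := by
  constructor
  · intro h1
    have h2 : h x = x' := (hp.1 (x, h x) (hL x h1) (x, x') hx).1 rfl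
    rw [← h2]
    exact List.mem_map_of_mem h1
  · intro h1
    obtain ⟨a, ha, hax⟩ := List.mem_map.1 h1
    have h2 : a = x := (hp.1 (a, h a) (hL a ha) (x, x') hx).2 hax
    rw [← h2]
    exact ha

lemma ar_PI {M M' : St (C × ℕ)} {p : List (ℕ × ℕ)} (hp : PI M M' p) {L : List ℕ} {h : ℕ → ℕ}
    (hL : ∀ a ∈ L, (a, h a) ∈ p) (F : Tab) {x x' y y' : ℕ} (hx : (x, x') ∈ p)
    (hy : (y, y') ∈ p) : Ar (bn M) L F x y ↔ Ar (bn M') (L.map h) F x' y' := by
  unfold Ar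
  rw [ee_PI hp hx hy, tp_PI hp hL hx, tp_PI hp hL hy]

/-- reachability in `k` steps -/
def Rch (c : ℕ → ℕ → ℕ) (P : Set ℕ) (L : List ℕ) (F : Tab) (x : ℕ) : ℕ → ℕ → Prop
  | 0, y => y = x
  | k + 1, y => ∃ u, Rch c P L F x k u ∧ Ar c L F u y ∧ y ∈ P ∧ y ∉ L

lemma mem_cl_iff {c : ℕ → ℕ → ℕ} {P : Set ℕ} {L : List ℕ} {F : Tab} {x y : ℕ} :
    y ∈ cl c P L F x ↔ ∃ k, Rch c P L F x k y := by
  constructor
  · intro h
    induction h with
    | refl => exact ⟨0, rfl⟩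
    | @tail u v _ hv ih =>
      obtain ⟨k, hk⟩ := ih
      exact ⟨k + 1, u, hk, hv.1, hv.2.1, hv.2.2⟩
  · rintro ⟨k, hk⟩
    induction k generalizing y with
    | zero =>
      have h1 : y = x := hk
      rw [h1]
      exact self_mem_cl
    | succ k ih =>
      obtain ⟨u, hu, hA, hP, hL⟩ := hk
      exact Relation.ReflTransGen.tail (ih hu) ⟨hA, hP, hL⟩

lemma rch_bf {M M' : St (C × ℕ)} {P P' : Set ℕ} {L : List ℕ} {F : Tab} {x : ℕ} {h : ℕ → ℕ}
    {r : Rk} {p0 : List (ℕ × ℕ)}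
    (hP : ∀ p : List (ℕ × ℕ), (∀ q ∈ p0, q ∈ p) → bf M M' univ univ r p → ∀ q ∈ p,
      (q.1 ∈ P ↔ q.2 ∈ P'))
    (hL : ∀ a ∈ L, (a, h a) ∈ p0) (hx : (x, h x) ∈ p0) :
    ∀ (k : ℕ) (p : List (ℕ × ℕ)), (∀ q ∈ p0, q ∈ p) → bf M M' univ univ (Rk.sucN k r) p →
      ∀ q ∈ p, (Rch (bn M) P L F x k q.1 ↔ Rch (bn M') P' (L.map h) F (h x) k q.2) := by
  intro k
  induction k with
  | zero =>
    intro p h0 hp q hq
    exact (bf_PI hp).1 q hq (x, h x) (h0 _ hx)
  | succ k ih =>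
    intro p h0 hp q hq
    have hpr : bf M M' univ univ r p := RLe.sucN (C := C × ℕ) (k + 1) r _ _ _ _ _ hp
    have hPI := bf_PI hp
    obtain ⟨h1, h2, h3⟩ := hp 0
    have hqP := hP p h0 hpr q hq
    have hqL : q.1 ∈ L ↔ q.2 ∈ L.map h :=
      mem_PI (x := q.1) (x' := q.2) hPI (fun a ha => h0 _ (hL a ha)) hq
    constructor
    · rintro ⟨u, hu, hA, hyP, hyL⟩
      obtain ⟨u', -, hu'⟩ := h2 u (mem_univ _)
      have h0' : ∀ q ∈ p0, q ∈ (u, u') :: p := fun q hq => List.mem_cons_of_mem _ (h0 q hq)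
      have e := (ih _ h0' hu' (u, u') List.mem_cons_self).1 hu
      refine ⟨u', e, ?_, hqP.1 hyP, fun h' => hyL (hqL.2 h')⟩
      exact (ar_PI (bf_PI hu') (fun a ha => h0' _ (hL a ha)) F
        List.mem_cons_self (List.mem_cons_of_mem _ hq)).1 hA
    · rintro ⟨u', hu, hA, hyP, hyL⟩
      obtain ⟨u, -, hu'⟩ := h3 u' (mem_univ _)
      have h0' : ∀ q ∈ p0, q ∈ (u, u') :: p := fun q hq => List.mem_cons_of_mem _ (h0 q hq)
      have e := (ih _ h0' hu' (u, u') List.mem_cons_self).2 hu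
      refine ⟨u, e, ?_, hqP.2 hyP, fun h' => hyL (hqL.1 h')⟩
      exact (ar_PI (bf_PI hu') (fun a ha => h0' _ (hL a ha)) F
        List.mem_cons_self (List.mem_cons_of_mem _ hq)).2 hA

lemma cl_bf {M M' : St (C × ℕ)} {P P' : Set ℕ} {L : List ℕ} {F : Tab} {x : ℕ} {h : ℕ → ℕ}
    {r : Rk} {p : List (ℕ × ℕ)}
    (hP : ∀ p' : List (ℕ × ℕ), (∀ q ∈ p, q ∈ p') → bf M M' univ univ r p' → ∀ q ∈ p',
      (q.1 ∈ P ↔ q.2 ∈ P'))
    (hL : ∀ a ∈ L, (a, h a) ∈ p) (hx : (x, h x) ∈ p) (hp : bf M M' univ univ (Rk.lim r) p) :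
    ∀ q ∈ p, (q.1 ∈ cl (bn M) P L F x ↔ q.2 ∈ cl (bn M') P' (L.map h) F (h x)) := by
  intro q hq
  rw [mem_cl_iff, mem_cl_iff]
  exact exists_congr fun k => rch_bf hP hL hx k p (fun _ h => h)
    (RLe.lim' (C := C × ℕ) k r _ _ _ _ _ hp) q hq

lemma main (M M' : St (C × ℕ)) (h : ℕ → ℕ) : ∀ (π : Pr) (p : List (ℕ × ℕ)),
    bf M M' univ univ ((Rk.lim^[π.length]) Rk.zero) p → (∀ a ∈ dl π, (a, h a) ∈ p) →
    (Vd (bn M) π ↔ Vd (bn M') (mp h π)) ∧
    ∀ q ∈ p, (q.1 ∈ st (bn M) π ↔ q.2 ∈ st (bn M') (mp h π)) := by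
  intro π
  induction π with
  | nil =>
    intro p _ _
    exact ⟨Iff.rfl, fun q _ => Iff.intro (fun _ => mem_univ _) (fun _ => mem_univ _)⟩
  | cons s π ih =>
    obtain ⟨S, F, v, β⟩ := s
    intro p hp hd
    rw [List.length_cons, Function.iterate_succ_apply'] at hp
    have hp1 := RLe.lim (C := C × ℕ) ((Rk.lim^[π.length]) Rk.zero) _ _ _ _ _ hp
    have hd1 : ∀ a ∈ dl π, (a, h a) ∈ p := fun a ha => hd a (dl_sub_cons _ _ ha)
    have hS : ∀ a ∈ S, (a, h a) ∈ p := fun a ha => hd a (by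
      rw [dl_cons]
      exact List.mem_cons_of_mem _ (List.mem_append_left _ ha))
    have hv : (v, h v) ∈ p := hd v (by
      rw [dl_cons]
      exact List.mem_cons_self)
    have hL : ∀ a ∈ S ++ zl π, (a, h a) ∈ p := by
      intro a ha
      rcases List.mem_append.1 ha with h1 | h1
      · exact hS a h1
      · exact hd1 a (zl_sub_dl π h1)
    obtain ⟨i1, i2⟩ := ih p hp1 hd1
    have hPI := bf_PI hp
    have hcl := cl_bf (P := st (bn M) π) (P' := st (bn M') (mp h π)) (L := S ++ zl π) (F := F)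
      (x := v) (h := h) (r := (Rk.lim^[π.length]) Rk.zero) (p := p)
      (fun p' hp' hb q hq => (ih p' hb (fun a ha => hp' _ (hd1 a ha))).2 q hq) hL hv hp
    rw [List.map_append, ← zl_mp] at hcl
    constructor
    · rw [mp_cons, vd_cons, vd_cons]
      simp only
      rw [i1]
      have e1 : (∀ a ∈ S, a ∈ st (bn M) π) ↔ ∀ a ∈ S.map h, a ∈ st (bn M') (mp h π) := by
        constructor
        · intro h3 a ha
          obtain ⟨b, hb, rfl⟩ := List.mem_map.1 ha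
          exact (i2 (b, h b) (hS b hb)).1 (h3 b hb)
        · intro h3 a ha
          exact (i2 (a, h a) (hS a ha)).2 (h3 _ (List.mem_map_of_mem ha))
      have e2 : v ∈ st (bn M) π ↔ h v ∈ st (bn M') (mp h π) := i2 (v, h v) hv
      have e3 : v ∈ S ↔ h v ∈ S.map h := mem_PI hPI hS hv
      rw [e1, e2, e3]
    · intro q hq
      rw [mp_cons]
      simp only
      cases β with
      | true =>
        rw [st_true, st_true]
        exact hcl q hq
      | false =>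
        rw [st_false, st_false]
        unfold co
        simp only [Set.mem_ofPred_eq]
        have e1 : q.1 ∈ S ++ zl π ↔ q.2 ∈ S.map h ++ zl (mp h π) := by
          rw [zl_mp, ← List.map_append]
          exact mem_PI (x := q.1) (x' := q.2) hPI hL hq
        rw [i2 q hq, e1, hcl q hq]

end MEM

theorem pf_MEM {C : Type} : T_MEM C := by
  intro M M' π h p hp hd
  exact MEM.main M M' h π p (hp π.length).1 hd

end Pool.Agent.CW
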